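import Mathlib

/-!
# Convex geometries, resolutions, primitive convex geometries
-/

set_option autoImplicit false

namespace Pool.Agent.Q164.ConvexGeom

/-- A convex geometry on `α`, given by its family of convex sets: it contains the empty set, is
closed under intersection, and every member other than the whole set can be enlarged by one point
inside the family. -/
structure IsConvexGeometry {α : Type} (G : Set (Set α)) : Prop where
  empty_mem : ∅ ∈ G
  inter_mem : ∀ A ∈ G, ∀ B ∈ G, A ∩ B ∈ G
  exists_insert : ∀ A ∈ G, A ≠ Set.univ → ∃ x, x ∉ A ∧ insert x A ∈ G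

/-- The least member of `G` containing `A` (the intersection of all members containing `A`). -/
def conv {α : Type} (G : Set (Set α)) (A : Set α) : Set α := ⋂₀ {C | C ∈ G ∧ A ⊆ C}

/-- The extreme points of `A`. -/
def ex {α : Type} (G : Set (Set α)) (A : Set α) : Set α := {a | a ∈ A ∧ a ∉ conv G (A \ {a})}

/-- The resolution with base `GX` and fibers `GY x`, on the disjoint union of the fibers. -/
def resolution {X : Type} {Y : X → Type} (GX : Set (Set X)) (GY : ∀ x, Set (Set (Y x))) :
    Set (Set (Σ x, Y x)) :=
  {D | Sigma.fst '' D ∈ GX ∧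
    (∀ x ∈ Sigma.fst '' D, {y : Y x | (⟨x, y⟩ : Σ x, Y x) ∈ D} ∈ GY x) ∧
    (∀ x ∈ Sigma.fst '' D, x ∉ ex GX (Sigma.fst '' D) → ∀ y : Y x, (⟨x, y⟩ : Σ x, Y x) ∈ D)}

/-- `G` is primitive: it is not isomorphic to a resolution whose base has at least two points and
which has a fiber with at least two points (base and fibers being convex geometries on finite
nonempty sets). -/
def IsPrimitive {Z : Type} (G : Set (Set Z)) : Prop :=
  ¬ ∃ (X : Type) (Y : X → Type) (GX : Set (Set X)) (GY : ∀ x, Set (Set (Y x)))
      (e : (Σ x, Y x) ≃ Z), Finite X ∧ (∀ x, Finite (Y x)) ∧ (∀ x, Nonempty (Y x)) ∧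
      IsConvexGeometry GX ∧ (∀ x, IsConvexGeometry (GY x)) ∧ 2 ≤ Nat.card X ∧
      (∃ x, 2 ≤ Nat.card (Y x)) ∧
      ∀ D : Set (Σ x, Y x), e '' D ∈ G ↔ D ∈ resolution GX GY

/-- The number of convex geometries on the labeled set `Fin n`. -/
noncomputable def numLabeled (n : ℕ) : ℕ :=
  Nat.card {G : Set (Set (Fin n)) // IsConvexGeometry G}

/-- The number of primitive convex geometries on the labeled set `Fin n`. -/
noncomputable def numLabeledPrimitive (n : ℕ) : ℕ :=
  Nat.card {G : Set (Set (Fin n)) // IsConvexGeometry G ∧ IsPrimitive G}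

/-- The isomorphism relation on the families on `Fin n` that satisfy `P`: some permutation of
`Fin n` maps the members of the first family exactly onto the members of the second. -/
def isoSetoid (n : ℕ) (P : Set (Set (Fin n)) → Prop) : Setoid {G : Set (Set (Fin n)) // P G} where
  r G H := ∃ e : Equiv.Perm (Fin n), ∀ A : Set (Fin n), A ∈ G.1 ↔ e '' A ∈ H.1
  iseqv :=
    { refl := fun G => ⟨Equiv.refl _, fun A => by simp⟩
      symm := by
        rintro G H ⟨e, he⟩
        refine ⟨e.symm, fun A => ?_⟩
        rw [he (e.symm '' A), ← Set.image_comp]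
        simp
      trans := by
        rintro G H K ⟨e, he⟩ ⟨f, hf⟩
        refine ⟨e.trans f, fun A => ?_⟩
        rw [he A, hf (e '' A), ← Set.image_comp]
        rfl }

/-- The number of isomorphism classes of families on `Fin n` that satisfy `P`. -/
noncomputable def numClasses (n : ℕ) (P : Set (Set (Fin n)) → Prop) : ℕ :=
  Nat.card (Quotient (isoSetoid n P))

/-- The number of isomorphism classes of convex geometries on `n` elements. -/
noncomputable def numUnlabeled (n : ℕ) : ℕ := numClasses n IsConvexGeometry

/-- The number of isomorphism classes of primitive convex geometries on `n` elements. -/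
noncomputable def numUnlabeledPrimitive (n : ℕ) : ℕ :=
  numClasses n (fun G => IsConvexGeometry G ∧ IsPrimitive G)

end Pool.Agent.Q164.ConvexGeom
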