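import Mathlib
import Pool.Agent.Q164.ConvexGeom.Defs

/-!
# One-point extensions of convex geometries and the growth of their number
-/

set_option autoImplicit false

namespace Pool.Agent.Q164.ConvexGeom

open Set

/-- The type of convex geometries. -/
abbrev CG (α : Type) : Type := {G : Set (Set α) // IsConvexGeometry G}

instance {α : Type} [Finite α] : Finite (CG α) := Subtype.finite

/-- The number of convex geometries on a finite type. -/
noncomputable def num (α : Type) : ℕ := Nat.card (CG α)

theorem num_fin (n : ℕ) : num (Fin n) = numLabeled n := rfl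

theorem isCG_map {α β : Type} (e : α ≃ β) {G : Set (Set α)} (h : IsConvexGeometry G) :
    IsConvexGeometry {B : Set β | e ⁻¹' B ∈ G} where
  empty_mem := by
    show e ⁻¹' ∅ ∈ G
    rw [Set.preimage_empty]
    exact h.empty_mem
  inter_mem A hA B hB := by
    show e ⁻¹' (A ∩ B) ∈ G
    rw [Set.preimage_inter]
    exact h.inter_mem _ hA _ hB
  exists_insert A hA hne := by
    have h1 : e ⁻¹' A ≠ Set.univ := by
      intro h1
      apply hne
      rw [Set.eq_univ_iff_forall] at h1 ⊢
      intro b
      have := h1 (e.symm b)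
      simpa using this
    obtain ⟨x, hx, hxG⟩ := h.exists_insert _ hA h1
    refine ⟨e x, hx, ?_⟩
    show e ⁻¹' (insert (e x) A) ∈ G
    have : e ⁻¹' (insert (e x) A) = insert x (e ⁻¹' A) := by
      ext y
      simp
    rw [this]
    exact hxG

/-- Transport of convex geometries. -/
noncomputable def mapEquiv {α β : Type} (e : α ≃ β) : CG α ≃ CG β where
  toFun G := ⟨{B : Set β | e ⁻¹' B ∈ G.1}, isCG_map e G.2⟩
  invFun G := ⟨{B : Set α | e.symm ⁻¹' B ∈ G.1}, isCG_map e.symm G.2⟩
  left_inv G := by
    apply Subtype.ext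
    ext B
    show e ⁻¹' (e.symm ⁻¹' B) ∈ G.1 ↔ B ∈ G.1
    rw [← Set.preimage_comp]
    simp
  right_inv G := by
    apply Subtype.ext
    ext B
    show e.symm ⁻¹' (e ⁻¹' B) ∈ G.1 ↔ B ∈ G.1
    rw [← Set.preimage_comp]
    simp

theorem num_eq {α : Type} [Finite α] : num α = numLabeled (Nat.card α) :=
  Nat.card_congr (mapEquiv (Finite.equivFin α))

theorem num_option {α : Type} [Finite α] : num (Option α) = numLabeled (Nat.card α + 1) := by
  rw [num_eq, Finite.card_option]

/-- The one-point extension of `G` by the down-set `D` of `G`. -/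
def extend {α : Type} (G D : Set (Set α)) : Set (Set (Option α)) :=
  {S | (none ∈ S ∧ some ⁻¹' S ∈ G) ∨ (none ∉ S ∧ some ⁻¹' S ∈ D)}

theorem isCG_extend {α : Type} {G D : Set (Set α)} (hG : IsConvexGeometry G) (hDG : D ⊆ G)
    (h0 : ∅ ∈ D) (hD : ∀ A ∈ G, ∀ B ∈ D, A ⊆ B → A ∈ D) : IsConvexGeometry (extend G D) where
  empty_mem := Or.inr ⟨by simp, by simpa using h0⟩
  inter_mem A hA B hB := by
    rcases hA with ⟨hA1, hA2⟩ | ⟨hA1, hA2⟩
    · rcases hB with ⟨hB1, hB2⟩ | ⟨hB1, hB2⟩
      · refine Or.inl ⟨⟨hA1, hB1⟩, ?_⟩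
        rw [Set.preimage_inter]
        exact hG.inter_mem _ hA2 _ hB2
      · refine Or.inr ⟨fun h => hB1 h.2, ?_⟩
        rw [Set.preimage_inter]
        exact hD _ (hG.inter_mem _ hA2 _ (hDG hB2)) _ hB2 Set.inter_subset_right
    · refine Or.inr ⟨fun h => hA1 h.1, ?_⟩
      rw [Set.preimage_inter]
      have hB3 : some ⁻¹' B ∈ G := by
        rcases hB with hB | hB
        · exact hB.2
        · exact hDG hB.2
      exact hD _ (hG.inter_mem _ (hDG hA2) _ hB3) _ hA2 Set.inter_subset_left
  exists_insert A hA hne := by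
    rcases hA with ⟨hA1, hA2⟩ | ⟨hA1, hA2⟩
    · have h1 : some ⁻¹' A ≠ Set.univ := by
        intro h1
        apply hne
        rw [Set.eq_univ_iff_forall] at h1 ⊢
        intro o
        cases o with
        | none => exact hA1
        | some x => exact h1 x
      obtain ⟨x, hx, hxG⟩ := hG.exists_insert _ hA2 h1
      refine ⟨some x, hx, Or.inl ⟨Or.inr hA1, ?_⟩⟩
      have : some ⁻¹' (insert (some x) A) = insert x (some ⁻¹' A) := by
        ext y
        simp
      rw [this]
      exact hxG
    · refine ⟨none, hA1, Or.inl ⟨Or.inl rfl, ?_⟩⟩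
      have : some ⁻¹' (insert none A) = (some ⁻¹' A : Set α) := by
        ext y
        simp
      rw [this]
      exact hDG hA2

theorem mem_extend_top {α : Type} (G D : Set (Set α)) (A : Set α) :
    insert none (some '' A) ∈ extend G D ↔ A ∈ G := by
  unfold extend
  have : some ⁻¹' (insert none (some '' A)) = A := by
    ext y
    simp
  simp [this]

theorem mem_extend_bot {α : Type} (G D : Set (Set α)) (A : Set α) :
    some '' A ∈ extend G D ↔ A ∈ D := by
  unfold extend
  have : some ⁻¹' (some '' A) = A := by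
    ext y
    simp
  simp [this]

theorem extend_injective {α : Type} {G D G' D' : Set (Set α)} (h : extend G D = extend G' D') :
    G = G' ∧ D = D' := by
  constructor
  · ext A
    rw [← mem_extend_top G D, h, mem_extend_top]
  · ext A
    rw [← mem_extend_bot G D, h, mem_extend_bot]

/-- The down-set of `G` given by a set `S` of members of size `i`. -/
def downset {α : Type} (G : Set (Set α)) (i : ℕ) (S : Set (Set α)) : Set (Set α) :=
  {A | A ∈ G ∧ (A.ncard < i ∨ A ∈ S)}

theorem isCG_extend_downset {α : Type} [Finite α] {G : Set (Set α)} (hG : IsConvexGeometry G)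
    {i : ℕ} (hi : 1 ≤ i) {S : Set (Set α)} (hS : ∀ A ∈ S, A.ncard = i) :
    IsConvexGeometry (extend G (downset G i S)) := by
  refine isCG_extend hG (fun A hA => hA.1) ⟨hG.empty_mem, Or.inl ?_⟩ ?_
  · rw [Set.ncard_empty]
    omega
  · intro A hA B hB hAB
    refine ⟨hA, ?_⟩
    by_cases h : A = B
    · subst h
      exact hB.2
    · left
      have h1 := Set.ncard_lt_ncard (lt_of_le_of_ne hAB h) (Set.toFinite B)
      rcases hB.2 with h2 | h2
      · omega
      · rw [hS B h2] at h1
        exact h1

theorem downset_injective {α : Type} {G : Set (Set α)} {i : ℕ} {S S' : Set (Set α)}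
    (hS : ∀ A ∈ S, A ∈ G ∧ A.ncard = i) (hS' : ∀ A ∈ S', A ∈ G ∧ A.ncard = i)
    (h : downset G i S = downset G i S') : S = S' := by
  ext A
  constructor
  · intro hA
    have h1 : A ∈ downset G i S := ⟨(hS A hA).1, Or.inr hA⟩
    rw [h] at h1
    rcases h1.2 with h2 | h2
    · rw [(hS A hA).2] at h2
      omega
    · exact h2
  · intro hA
    have h1 : A ∈ downset G i S' := ⟨(hS' A hA).1, Or.inr hA⟩
    rw [← h] at h1
    rcases h1.2 with h2 | h2
    · rw [(hS' A hA).2] at h2
      omega
    · exact h2

/-- The members of size `i`. -/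
def level {α : Type} (G : Set (Set α)) (i : ℕ) : Set (Set α) := {A | A ∈ G ∧ A.ncard = i}

/-- If every member of a family `B` of convex geometries has a level with at least `t` members, then
there are at least `|B| * 2 ^ t` convex geometries with one more point. -/
theorem card_mul_two_pow_le {α : Type} [Finite α] (B : Set (CG α)) (t : ℕ)
    (hB : ∀ G ∈ B, ∃ i, 1 ≤ i ∧ t ≤ (level G.1 i).ncard) :
    Nat.card B * 2 ^ t ≤ num (Option α) := by
  classical
  choose! i hi using hB
  have hemb : ∀ G : B, Nonempty (Fin t ↪ level G.1.1 (i G.1)) := by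
    intro G
    have : Fintype (level G.1.1 (i G.1)) := Fintype.ofFinite _
    have h1 := (hi G.1 G.2).2
    rw [← Nat.card_coe_set_eq, Nat.card_eq_fintype_card] at h1
    exact Function.Embedding.nonempty_of_card_le (by rwa [Fintype.card_fin])
  have f : ∀ G : B, Fin t ↪ level G.1.1 (i G.1) := fun G => (hemb G).some
  have key : Function.Injective (fun p : B × Set (Fin t) =>
      (⟨extend p.1.1.1 (downset p.1.1.1 (i p.1.1) ((fun j => (f p.1 j : Set α)) '' p.2)),
        isCG_extend_downset p.1.1.2 (hi p.1.1 p.1.2).1 (by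
          rintro _ ⟨j, _, rfl⟩
          exact (f p.1 j).2.2)⟩ : CG (Option α))) := by
    rintro ⟨G, S⟩ ⟨G', S'⟩ h
    simp only [Subtype.mk.injEq] at h
    obtain ⟨h1, h2⟩ := extend_injective h
    have hGG : G = G' := Subtype.ext (Subtype.ext h1)
    subst hGG
    have h3 := downset_injective (by
      rintro _ ⟨j, _, rfl⟩
      exact (f G j).2) (by
      rintro _ ⟨j, _, rfl⟩
      exact (f G j).2) h2
    have hinj : Function.Injective (fun j => (f G j : Set α)) :=
      Subtype.val_injective.comp (f G).injective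
    rw [hinj.image_injective h3]
  have h := Nat.card_le_card_of_injective _ key
  rw [Nat.card_prod] at h
  have h2 : Nat.card (Set (Fin t)) = 2 ^ t := by
    rw [Nat.card_eq_fintype_card, Fintype.card_set, Fintype.card_fin]
  rw [h2] at h
  exact h

/-- The pigeonhole principle on the levels. -/
theorem exists_level {α : Type} [Finite α] (hpos : 0 < Nat.card α) {G : Set (Set α)} {t : ℕ}
    (hG : Nat.card α * t < G.ncard) : ∃ i, 1 ≤ i ∧ t ≤ (level G i).ncard := by
  classical
  have : Fintype α := Fintype.ofFinite α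
  set m := Nat.card α with hm
  have hfin : G.Finite := Set.toFinite G
  let s : Finset (Set α) := (hfin.toFinset).erase ∅
  have hs : m * t ≤ s.card := by
    have h1 := Finset.pred_card_le_card_erase (s := hfin.toFinset) (a := (∅ : Set α))
    rw [← Set.ncard_eq_toFinset_card G hfin] at h1
    have : G.ncard - 1 ≤ s.card := h1
    omega
  have hmaps : ∀ A ∈ s, A.ncard ∈ Finset.Icc 1 m := by
    intro A hA
    rw [Finset.mem_Icc]
    have hne : A ≠ ∅ := (Finset.mem_erase.1 hA).1
    constructor
    · rw [Nat.one_le_iff_ne_zero]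
      intro h0
      exact hne ((Set.ncard_eq_zero (Set.toFinite A)).1 h0)
    · exact Set.ncard_le_card A
  obtain ⟨i, hi, hle⟩ := Finset.exists_le_card_fiber_of_mul_le_card_of_maps_to hmaps
      (n := t) ⟨1, Finset.mem_Icc.2 ⟨le_rfl, hpos⟩⟩ (by
        rw [Nat.card_Icc]
        simpa using hs)
  refine ⟨i, (Finset.mem_Icc.1 hi).1, hle.trans ?_⟩
  rw [← Set.ncard_coe_finset]
  apply Set.ncard_le_ncard _ (Set.toFinite _)
  intro A hA
  rw [Finset.mem_coe, Finset.mem_filter] at hA
  exact ⟨hfin.mem_toFinset.1 (Finset.mem_erase.1 hA.1).2, hA.2⟩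

theorem isCG_univ (α : Type) : IsConvexGeometry (Set.univ : Set (Set α)) where
  empty_mem := Set.mem_univ _
  inter_mem _ _ _ _ := Set.mem_univ _
  exists_insert A _ hne := by
    obtain ⟨x, hx⟩ := (Set.ne_univ_iff_exists_notMem A).1 hne
    exact ⟨x, hx, Set.mem_univ _⟩

theorem ncard_level_univ {α : Type} [Finite α] (i : ℕ) :
    (level (Set.univ : Set (Set α)) i).ncard = (Nat.card α).choose i := by
  classical
  have : Fintype α := Fintype.ofFinite α
  have h1 : level (Set.univ : Set (Set α)) i =
      (fun s : Finset α => (s : Set α)) '' ((Finset.powersetCard i Finset.univ : Finset (Finset α)) :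
        Set (Finset α)) := by
    ext A
    simp only [level, Set.mem_univ, true_and, Set.mem_ofPred_eq, Set.mem_image, Finset.mem_coe,
      Finset.mem_powersetCard, Finset.subset_univ]
    constructor
    · intro h
      refine ⟨A.toFinset, ?_, by simp⟩
      rw [← Set.ncard_eq_toFinset_card']
      exact h
    · rintro ⟨s, hs, rfl⟩
      rw [Set.ncard_coe_finset]
      exact hs
  rw [h1, Set.ncard_image_of_injective _ Finset.coe_injective, Set.ncard_coe_finset,
    Finset.card_powersetCard, Finset.card_univ, Nat.card_eq_fintype_card]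

theorem two_pow_choose_le {α : Type} [Finite α] {i : ℕ} (hi : 1 ≤ i) :
    2 ^ (Nat.card α).choose i ≤ num (Option α) := by
  have h := card_mul_two_pow_le ({⟨Set.univ, isCG_univ α⟩} : Set (CG α)) ((Nat.card α).choose i)
    (by
      rintro G rfl
      exact ⟨i, hi, (ncard_level_univ i).ge⟩)
  simpa using h

/-- Few convex geometries have few members. -/
theorem card_small_le {α : Type} [Finite α] (s : ℕ) :
    Nat.card {G : CG α // G.1.ncard ≤ s} ≤ (2 ^ Nat.card α) ^ s := by
  classical
  have : Fintype α := Fintype.ofFinite α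
  have hsurj : ∀ G : {G : CG α // G.1.ncard ≤ s}, ∃ f : Fin s → Set α, Set.range f = G.1.1 := by
    intro G
    have : Fintype G.1.1 := Fintype.ofFinite _
    have hne : Nonempty G.1.1 := ⟨⟨∅, G.1.2.empty_mem⟩⟩
    have hcard : Fintype.card G.1.1 ≤ Fintype.card (Fin s) := by
      rw [Fintype.card_fin, ← Nat.card_eq_fintype_card, Nat.card_coe_set_eq]
      exact G.2
    obtain ⟨g⟩ := Function.Embedding.nonempty_of_card_le hcard
    have h1 : Function.Surjective (Function.invFun g) := Function.invFun_surjective g.injective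
    refine ⟨Subtype.val ∘ Function.invFun g, ?_⟩
    rw [Set.range_comp, h1.range_eq, Set.image_univ, Subtype.range_coe]
  choose f hf using hsurj
  have hinj : Function.Injective f := by
    intro G H h
    apply Subtype.ext
    apply Subtype.ext
    rw [← hf G, ← hf H, h]
  have h := Nat.card_le_card_of_injective f hinj
  rwa [Nat.card_eq_fintype_card (α := Fin s → Set α), Fintype.card_fun, Fintype.card_set,
    Fintype.card_fin, ← Nat.card_eq_fintype_card] at h

/-- The growth of the number of convex geometries. -/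
theorem growth (m s t i : ℕ) (hi : 1 ≤ i) (hs : (m + 1) * s + 1 ≤ m.choose i)
    (ht : (m + 1) * t ≤ s) : numLabeled (m + 1) * 2 ^ t ≤ 2 * numLabeled (m + 2) := by
  have hcard : Nat.card (Fin (m + 1)) = m + 1 := Nat.card_fin _
  have h1 : 2 ^ (m.choose i) ≤ numLabeled (m + 1) := by
    have := two_pow_choose_le (α := Fin m) hi
    rwa [num_option, Nat.card_fin] at this
  have h2 := card_small_le (α := Fin (m + 1)) s
  rw [hcard, ← pow_mul] at h2
  have h3 : 2 * 2 ^ ((m + 1) * s) ≤ numLabeled (m + 1) := by
    refine le_trans ?_ h1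
    rw [← pow_succ']
    exact Nat.pow_le_pow_right (by norm_num) hs
  set B : Set (CG (Fin (m + 1))) := {G | s < G.1.ncard} with hB
  have h4 := card_mul_two_pow_le B t (by
    intro G hG
    apply exists_level (by rw [hcard]; omega)
    rw [hcard]
    exact lt_of_le_of_lt ht hG)
  rw [num_option, hcard] at h4
  have h5 : Nat.card {G : CG (Fin (m + 1)) // G.1.ncard ≤ s} + Nat.card B =
      numLabeled (m + 1) := by
    classical
    have h6 : Nat.card {G : CG (Fin (m + 1)) // G.1.ncard ≤ s} +
        Nat.card {G : CG (Fin (m + 1)) // ¬ G.1.ncard ≤ s} = Nat.card (CG (Fin (m + 1))) := by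
      rw [← Nat.card_sum]
      exact Nat.card_congr (Equiv.sumCompl _)
    rw [show numLabeled (m + 1) = Nat.card (CG (Fin (m + 1))) from rfl, ← h6]
    congr 1
    apply Nat.card_congr
    refine Equiv.subtypeEquivRight fun G => ?_
    rw [hB, Set.mem_ofPred_eq, not_le]
  have h7 : numLabeled (m + 1) ≤ 2 * Nat.card B := by omega
  calc numLabeled (m + 1) * 2 ^ t ≤ 2 * Nat.card B * 2 ^ t := Nat.mul_le_mul_right _ h7
    _ = 2 * (Nat.card B * 2 ^ t) := by ring
    _ ≤ 2 * numLabeled (m + 2) := Nat.mul_le_mul_left _ h4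

/-- The number of convex geometries is monotone. -/
theorem numLabeled_mono : Monotone numLabeled := by
  apply monotone_nat_of_le_succ
  intro n
  have h := card_mul_two_pow_le (Set.univ : Set (CG (Fin n))) 0 (fun G _ => ⟨1, le_rfl, by simp⟩)
  rw [num_option, Nat.card_fin, pow_zero, mul_one, Nat.card_coe_set_eq, Set.ncard_univ] at h
  exact h

theorem numLabeled_pos (n : ℕ) : 0 < numLabeled n := by
  have : Nonempty (CG (Fin n)) := ⟨⟨_, isCG_univ _⟩⟩
  exact Nat.card_pos

/-- The trivial upper bound. -/
theorem numLabeled_le (n : ℕ) : numLabeled n ≤ 2 ^ 2 ^ n := by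
  have h := Nat.card_le_card_of_injective (fun G : CG (Fin n) => G.1) Subtype.val_injective
  rwa [Nat.card_eq_fintype_card (α := Set (Set (Fin n))), Fintype.card_set, Fintype.card_set,
    Fintype.card_fin] at h

end Pool.Agent.Q164.ConvexGeom
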