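import Mathlib
import Pool.Agent.Q164.ConvexGeom.Ext

/-!
# Counting the non-primitive convex geometries
-/

set_option autoImplicit false

namespace Pool.Agent.Q164.ConvexGeom

open Set

theorem univ_mem {α : Type} [Finite α] {G : Set (Set α)} (h : IsConvexGeometry G) :
    Set.univ ∈ G := by
  obtain ⟨A, hA, hmax⟩ := Set.exists_max_image G (fun A => A.ncard) (Set.toFinite G)
    ⟨∅, h.empty_mem⟩
  by_contra hne
  have hA' : A ≠ Set.univ := fun h1 => hne (h1 ▸ hA)
  obtain ⟨x, hx, hxG⟩ := h.exists_insert A hA hA'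
  have := hmax _ hxG
  rw [Set.ncard_insert_of_notMem hx (Set.toFinite A)] at this
  omega

theorem sInter_mem {α : Type} [Finite α] {G : Set (Set α)} (h : IsConvexGeometry G)
    {S : Set (Set α)} (hS : S ⊆ G) : ⋂₀ S ∈ G := by
  have hfin : S.Finite := Set.toFinite S
  induction S, hfin using Set.Finite.induction_on with
  | empty =>
    rw [Set.sInter_empty]
    exact univ_mem h
  | insert _ _ ih =>
    rw [Set.sInter_insert]
    exact h.inter_mem _ (hS (Set.mem_insert _ _)) _
      (ih ((Set.subset_insert _ _).trans hS))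

theorem mem_ex_iff {α : Type} [Finite α] {G : Set (Set α)} (h : IsConvexGeometry G)
    {P : Set α} (hP : P ∈ G) (x : α) : x ∈ ex G P ↔ x ∈ P ∧ P \ {x} ∈ G := by
  constructor
  · rintro ⟨hx, hxc⟩
    refine ⟨hx, ?_⟩
    have h1 : conv G (P \ {x}) ∈ G := sInter_mem h (fun C hC => hC.1)
    have h2 : conv G (P \ {x}) = P \ {x} := by
      apply subset_antisymm
      · intro y hy
        refine ⟨hy P ⟨hP, Set.sdiff_subset⟩, ?_⟩
        rintro rfl
        exact hxc hy
      · intro y hy C hC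
        exact hC.2 hy
    rwa [h2] at h1
  · rintro ⟨hx, hxG⟩
    refine ⟨hx, fun hc => ?_⟩
    exact (hc _ ⟨hxG, subset_rfl⟩).2 rfl

theorem ex_sdiff {α : Type} {G : Set (Set α)} {P : Set α} {x x0 : α} (hne : x ≠ x0)
    (hx : x ∈ ex G P) : x ∈ ex G (P \ {x0}) := by
  refine ⟨⟨hx.1, hne⟩, fun hc => hx.2 ?_⟩
  intro C hC
  apply hc C
  refine ⟨hC.1, ?_⟩
  intro y hy
  exact hC.2 ⟨hy.1.1, hy.2⟩

/-- The set `Y` is the only nontrivial fiber of a resolution presentation of `G`, with the fiber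
geometry `T`. -/
def IsFiber {Z : Type} (G : Set (Set Z)) (Y : Set Z) (T : Set (Set Y)) : Prop :=
  ∀ D : Set Z, (D ∩ Y).Nonempty → ¬ Y ⊆ D →
    (D ∈ G ↔ D ∪ Y ∈ G ∧ D \ Y ∈ G ∧ {y : Y | (y : Z) ∈ D} ∈ T)

theorem exists_fiber {Z : Type} [Finite Z] {G : Set (Set Z)} (hG : ¬ IsPrimitive G) :
    ∃ Y : Set Z, 2 ≤ Y.ncard ∧ Y ≠ Set.univ ∧ ∃ T : CG Y, IsFiber G Y T.1 := by
  unfold IsPrimitive at hG
  rw [not_not] at hG
  obtain ⟨X, Y, GX, GY, e, hX, hY, hYne, hGX, hGY, hcX, ⟨x0, hx0⟩, hres⟩ := hG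
  set F : Set (Σ x, Y x) := {p | p.1 = x0} with hF
  -- the fiber as a subset of `Z`
  let f0 : Y x0 → (e '' F : Set Z) := fun y => ⟨e ⟨x0, y⟩, ⟨⟨x0, y⟩, rfl, rfl⟩⟩
  have hf0 : Function.Bijective f0 := by
    constructor
    · intro y y' h
      have h1 : e ⟨x0, y⟩ = e ⟨x0, y'⟩ := congrArg Subtype.val h
      exact sigma_mk_injective (e.injective h1)
    · rintro ⟨_, ⟨x, y⟩, hp, rfl⟩
      change x = x0 at hp
      subst hp
      exact ⟨y, rfl⟩
  let f : Y x0 ≃ (e '' F : Set Z) := Equiv.ofBijective f0 hf0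
  refine ⟨e '' F, ?_, ?_, mapEquiv f ⟨GY x0, hGY x0⟩, ?_⟩
  · rw [← Nat.card_coe_set_eq, ← Nat.card_congr f]
    exact hx0
  · intro h
    have : Nontrivial X := by
      rw [← Finite.one_lt_card_iff_nontrivial]
      omega
    obtain ⟨x1, hx1⟩ := exists_ne x0
    obtain ⟨y1⟩ := hYne x1
    have h1 : e ⟨x1, y1⟩ ∈ e '' F := h ▸ Set.mem_univ _
    rw [e.injective.mem_set_image] at h1
    exact hx1 h1
  · intro D hD1 hD2
    have : Nonempty (Y x0) := hYne x0
    set D' : Set (Σ x, Y x) := e ⁻¹' D with hD'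
    have hDe : e '' D' = D := Set.image_preimage_eq D e.surjective
    have hDY : D ∪ e '' F = e '' (D' ∪ F) := by rw [Set.image_union, hDe]
    have hDs : D \ e '' F = e '' (D' \ F) := by rw [Set.image_sdiff e.injective, hDe]
    have hx0P : x0 ∈ Sigma.fst '' D' := by
      obtain ⟨z, hz, p, hp, rfl⟩ := hD1
      exact ⟨p, hz, hp⟩
    have hex : ∃ y0 : Y x0, (⟨x0, y0⟩ : Σ x, Y x) ∉ D' := by
      by_contra hcon
      push Not at hcon
      apply hD2
      rintro _ ⟨⟨x, y⟩, hp, rfl⟩
      change x = x0 at hp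
      subst hp
      exact hcon y
    obtain ⟨y0, hy0⟩ := hex
    have hP1 : Sigma.fst '' (D' ∪ F) = Sigma.fst '' D' := by
      apply subset_antisymm
      · rintro _ ⟨p, hp | hp, rfl⟩
        · exact ⟨p, hp, rfl⟩
        · change p.1 = x0 at hp
          rw [hp]
          exact hx0P
      · exact Set.image_mono Set.subset_union_left
    have hP2 : Sigma.fst '' (D' \ F) = Sigma.fst '' D' \ {x0} := by
      ext x
      constructor
      · rintro ⟨p, hp, rfl⟩
        exact ⟨⟨p, hp.1, rfl⟩, hp.2⟩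
      · rintro ⟨⟨p, hp, rfl⟩, hx⟩
        exact ⟨p, ⟨hp, hx⟩, rfl⟩
    have hT : {y : (e '' F : Set Z) | (y : Z) ∈ D} ∈ (mapEquiv f ⟨GY x0, hGY x0⟩).1 ↔
        {y : Y x0 | (⟨x0, y⟩ : Σ x, Y x) ∈ D'} ∈ GY x0 := by
      show f ⁻¹' {y : (e '' F : Set Z) | (y : Z) ∈ D} ∈ GY x0 ↔ _
      rfl
    rw [hT, hDY, hDs, hres, hres]
    conv_lhs => rw [← hDe]
    rw [hres]
    constructor
    · rintro ⟨h1, h2, h3⟩
      have hx0ex : x0 ∈ ex GX (Sigma.fst '' D') := by
        by_contra hcon
        exact hy0 (h3 x0 hx0P hcon y0)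
      refine ⟨⟨?_, ?_, ?_⟩, ⟨?_, ?_, ?_⟩, h2 x0 hx0P⟩
      · rw [hP1]
        exact h1
      · rw [hP1]
        intro x hx
        by_cases hxx : x = x0
        · subst hxx
          have : {y : Y x | (⟨x, y⟩ : Σ x, Y x) ∈ D' ∪ F} = Set.univ := by
            rw [Set.eq_univ_iff_forall]
            intro y
            exact Or.inr rfl
          rw [this]
          exact univ_mem (hGY x)
        · have : {y : Y x | (⟨x, y⟩ : Σ x, Y x) ∈ D' ∪ F} =
              {y : Y x | (⟨x, y⟩ : Σ x, Y x) ∈ D'} := by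
            ext y
            constructor
            · rintro (h | h)
              · exact h
              · exact absurd h hxx
            · exact fun h => Or.inl h
          rw [this]
          exact h2 x hx
      · rw [hP1]
        intro x hx hxe y
        exact Or.inl (h3 x hx hxe y)
      · rw [hP2]
        exact ((mem_ex_iff hGX h1 x0).1 hx0ex).2
      · rw [hP2]
        intro x hx
        have : {y : Y x | (⟨x, y⟩ : Σ x, Y x) ∈ D' \ F} =
            {y : Y x | (⟨x, y⟩ : Σ x, Y x) ∈ D'} := by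
          ext y
          constructor
          · exact fun h => h.1
          · exact fun h => ⟨h, hx.2⟩
        rw [this]
        exact h2 x hx.1
      · rw [hP2]
        intro x hx hxe y
        refine ⟨h3 x hx.1 (fun h => hxe (ex_sdiff hx.2 h)) y, hx.2⟩
    · rintro ⟨⟨h1, h2, h3⟩, ⟨g1, g2, g3⟩, hT0⟩
      rw [hP1] at h1 h2 h3
      rw [hP2] at g1
      refine ⟨h1, ?_, ?_⟩
      · intro x hx
        by_cases hxx : x = x0
        · subst hxx
          exact hT0
        · have : {y : Y x | (⟨x, y⟩ : Σ x, Y x) ∈ D' ∪ F} =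
              {y : Y x | (⟨x, y⟩ : Σ x, Y x) ∈ D'} := by
            ext y
            constructor
            · rintro (h | h)
              · exact h
              · exact absurd h hxx
            · exact fun h => Or.inl h
          have h4 := h2 x hx
          rwa [this] at h4
      · intro x hx hxe y
        by_cases hxx : x = x0
        · subst hxx
          exact absurd ((mem_ex_iff hGX h1 x).2 ⟨hx, g1⟩) hxe
        · rcases h3 x hx hxe y with h | h
          · exact h
          · exact absurd h hxx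

end Pool.Agent.Q164.ConvexGeom
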