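import Mathlib
import Pool.Agent.Q164.ConvexGeom.NonPrim

/-!
# The bound for the number of non-primitive convex geometries
-/

set_option autoImplicit false

namespace Pool.Agent.Q164.ConvexGeom

open Set

/-- The saturated set given by a set of points of the quotient by `Y`. -/
def lift {Z : Type} (Y : Set Z) (S : Set (Option (Yᶜ : Set Z))) : Set Z :=
  {z | (∃ h : z ∈ Yᶜ, some ⟨z, h⟩ ∈ S) ∨ (z ∈ Y ∧ none ∈ S)}

/-- The quotient family. -/
def quot {Z : Type} (G : Set (Set Z)) (Y : Set Z) : Set (Set (Option (Yᶜ : Set Z))) :=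
  {S | lift Y S ∈ G}

theorem mem_lift_of_mem {Z : Type} {Y : Set Z} {S : Set (Option (Yᶜ : Set Z))} {z : Z}
    (hz : z ∈ Y) : z ∈ lift Y S ↔ none ∈ S := by
  constructor
  · rintro (⟨h, _⟩ | h)
    · exact absurd hz h
    · exact h.2
  · exact fun h => Or.inr ⟨hz, h⟩

theorem mem_lift_of_notMem {Z : Type} {Y : Set Z} {S : Set (Option (Yᶜ : Set Z))} {z : Z}
    (hz : z ∉ Y) : z ∈ lift Y S ↔ some ⟨z, hz⟩ ∈ S := by
  constructor
  · rintro (⟨_, h⟩ | h)
    · exact h
    · exact absurd h.1 hz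
  · exact fun h => Or.inl ⟨hz, h⟩

/-- The quotient set of a set. -/
def down {Z : Type} (Y D : Set Z) : Set (Option (Yᶜ : Set Z)) :=
  {o | (∃ z : (Yᶜ : Set Z), o = some z ∧ (z : Z) ∈ D) ∨ (o = none ∧ Y ⊆ D)}

theorem lift_down {Z : Type} {Y D : Set Z} (h : D ∩ Y = ∅ ∨ Y ⊆ D) :
    lift Y (down Y D) = D := by
  ext z
  by_cases hz : z ∈ Y
  · rw [mem_lift_of_mem hz]
    have h1 : none ∈ down Y D ↔ Y ⊆ D := by
      constructor
      · rintro (⟨_, h, _⟩ | h)
        · exact absurd h (by simp)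
        · exact h.2
      · exact fun h => Or.inr ⟨rfl, h⟩
    rw [h1]
    constructor
    · exact fun h => h hz
    · intro hzD
      rcases h with h | h
      · exact absurd (show z ∈ D ∩ Y from ⟨hzD, hz⟩) (by rw [h]; simp)
      · exact h
  · rw [mem_lift_of_notMem hz]
    constructor
    · rintro (⟨z', h1, h2⟩ | h)
      · have h3 : (⟨z, hz⟩ : (Yᶜ : Set Z)) = z' := Option.some_injective _ h1
        rw [← h3] at h2
        exact h2
      · exact absurd h.1 (by simp)
    · exact fun h => Or.inl ⟨⟨z, hz⟩, rfl, h⟩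

theorem isCG_quot {Z : Type} {G : Set (Set Z)} (hG : IsConvexGeometry G) {Y : Set Z}
    {T : Set (Set Y)} (hY : 2 ≤ Y.ncard) (hT : IsFiber G Y T) : IsConvexGeometry (quot G Y) where
  empty_mem := by
    show lift Y ∅ ∈ G
    have : lift Y ∅ = ∅ := by
      ext z
      simp [lift]
    rw [this]
    exact hG.empty_mem
  inter_mem A hA B hB := by
    show lift Y (A ∩ B) ∈ G
    have : lift Y (A ∩ B) = lift Y A ∩ lift Y B := by
      ext z
      rw [Set.mem_inter_iff]
      by_cases hz : z ∈ Y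
      · rw [mem_lift_of_mem hz, mem_lift_of_mem hz, mem_lift_of_mem hz]
        rfl
      · rw [mem_lift_of_notMem hz, mem_lift_of_notMem hz, mem_lift_of_notMem hz]
        rfl
    rw [this]
    exact hG.inter_mem _ hA _ hB
  exists_insert A hA hne := by
    have hYne : Y.Nonempty := by
      rw [Set.nonempty_iff_ne_empty]
      rintro rfl
      simp at hY
    obtain ⟨y0, hy0⟩ := hYne
    have h1 : lift Y A ≠ Set.univ := by
      intro h1
      apply hne
      rw [Set.eq_univ_iff_forall] at h1 ⊢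
      intro o
      cases o with
      | none => exact (mem_lift_of_mem hy0).1 (h1 y0)
      | some z => exact (mem_lift_of_notMem z.2).1 (h1 z)
    obtain ⟨z, hz, hzG⟩ := hG.exists_insert _ hA h1
    by_cases hzY : z ∈ Y
    · rw [mem_lift_of_mem hzY] at hz
      refine ⟨none, hz, ?_⟩
      have h2 : ((insert z (lift Y A)) ∩ Y).Nonempty := ⟨z, Set.mem_insert _ _, hzY⟩
      obtain ⟨y1, hy1, hy1z⟩ := Set.exists_ne_of_one_lt_ncard (by omega : 1 < Y.ncard) z
      have h3 : ¬ Y ⊆ insert z (lift Y A) := by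
        intro h
        rcases h hy1 with h | h
        · exact hy1z h
        · exact hz ((mem_lift_of_mem hy1).1 h)
      have h4 := ((hT _ h2 h3).1 hzG).1
      show lift Y (insert none A) ∈ G
      have : lift Y (insert none A) = insert z (lift Y A) ∪ Y := by
        ext x
        by_cases hx : x ∈ Y
        · rw [mem_lift_of_mem hx]
          simp [hx]
        · have : x ≠ z := by
            rintro rfl
            exact hx hzY
          have hh := mem_lift_of_notMem (S := A) hx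
          rw [mem_lift_of_notMem hx]
          simp [hx, this, hh]
      rw [this]
      exact h4
    · rw [mem_lift_of_notMem hzY] at hz
      refine ⟨some ⟨z, hzY⟩, hz, ?_⟩
      show lift Y (insert (some ⟨z, hzY⟩) A) ∈ G
      have : lift Y (insert (some ⟨z, hzY⟩) A) = insert z (lift Y A) := by
        ext x
        rw [Set.mem_insert_iff]
        by_cases hx : x ∈ Y
        · rw [mem_lift_of_mem hx, mem_lift_of_mem hx]
          have : x ≠ z := by
            rintro rfl
            exact hzY hx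
          simp [this]
        · rw [mem_lift_of_notMem hx, mem_lift_of_notMem hx, Set.mem_insert_iff]
          simp
      rw [this]
      exact hzG

theorem fiber_ext {Z : Type} {G G' : Set (Set Z)} {Y : Set Z} {T : Set (Set Y)}
    (hT : IsFiber G Y T) (hT' : IsFiber G' Y T) (hQ : quot G Y = quot G' Y) :
    G = G' := by
  have hsat : ∀ D : Set Z, (D ∩ Y = ∅ ∨ Y ⊆ D) → (D ∈ G ↔ D ∈ G') := by
    intro D hD
    have h1 : down Y D ∈ quot G Y ↔ down Y D ∈ quot G' Y := by rw [hQ]
    have h2 := lift_down hD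
    change lift Y (down Y D) ∈ G ↔ lift Y (down Y D) ∈ G' at h1
    rwa [h2] at h1
  ext D
  by_cases h1 : D ∩ Y = ∅
  · exact hsat D (Or.inl h1)
  · by_cases h2 : Y ⊆ D
    · exact hsat D (Or.inr h2)
    · rw [hT D (Set.nonempty_iff_ne_empty.2 h1) h2, hT' D (Set.nonempty_iff_ne_empty.2 h1) h2,
        hsat (D ∪ Y) (Or.inr Set.subset_union_right), hsat (D \ Y) (Or.inl (by simp))]

/-- The number of non-primitive convex geometries. -/
noncomputable def numNonPrimitive (n : ℕ) : ℕ :=
  Nat.card {G : Set (Set (Fin n)) // IsConvexGeometry G ∧ ¬ IsPrimitive G}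

theorem nonPrimitive_le (n : ℕ) :
    numNonPrimitive n ≤ 2 ^ n * (numLabeled (n - 1) * 2 ^ 2 ^ ((n + 1) / 2)) := by
  classical
  let I := {Y : Set (Fin n) // 2 ≤ Y.ncard ∧ Y ≠ Set.univ}
  have hex : ∀ G : {G : Set (Set (Fin n)) // IsConvexGeometry G ∧ ¬ IsPrimitive G},
      ∃ Y : I, ∃ T : CG Y.1, IsFiber G.1 Y.1 T.1 := by
    rintro ⟨G, hG, hP⟩
    obtain ⟨Y, h1, h2, T, hT⟩ := exists_fiber hP
    exact ⟨⟨Y, h1, h2⟩, T, hT⟩
  choose Y T hT using hex
  let φ : {G : Set (Set (Fin n)) // IsConvexGeometry G ∧ ¬ IsPrimitive G} →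
      Σ Y : I, CG Y.1 × CG (Option (Y.1ᶜ : Set (Fin n))) := fun G =>
    ⟨Y G, T G, ⟨quot G.1 (Y G).1, isCG_quot G.2.1 (Y G).2.1 (hT G)⟩⟩
  have hφ : Function.Injective φ := by
    intro G G' h
    have key : ∀ (Y1 Y2 : I) (a : CG Y1.1 × CG (Option (Y1.1ᶜ : Set (Fin n))))
        (b : CG Y2.1 × CG (Option (Y2.1ᶜ : Set (Fin n)))),
        (⟨Y1, a⟩ : Σ Y : I, CG Y.1 × CG (Option (Y.1ᶜ : Set (Fin n)))) = ⟨Y2, b⟩ →
        IsFiber G.1 Y1.1 a.1.1 → IsFiber G'.1 Y2.1 b.1.1 → a.2.1 = quot G.1 Y1.1 →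
        b.2.1 = quot G'.1 Y2.1 → G.1 = G'.1 := by
      intro Y1 Y2 a b hab h1 h2 h3 h4
      obtain ⟨rfl, hab⟩ := Sigma.mk.inj hab
      rw [heq_eq_eq] at hab
      subst hab
      exact fiber_ext h1 h2 (h3.symm.trans h4)
    exact Subtype.ext (key _ _ _ _ h (hT G) (hT G') rfl rfl)
  have h1 := Nat.card_le_card_of_injective φ hφ
  have hI : Fintype I := Fintype.ofFinite I
  rw [Nat.card_sigma] at h1
  have h2 : ∀ Y : I, Nat.card (CG Y.1 × CG (Option (Y.1ᶜ : Set (Fin n)))) ≤
      numLabeled (n - 1) * 2 ^ 2 ^ ((n + 1) / 2) := by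
    intro Y
    rw [Nat.card_prod]
    have h3 : Nat.card (CG Y.1) = numLabeled Y.1.ncard := by
      have := num_eq (α := Y.1)
      rwa [Nat.card_coe_set_eq] at this
    have hlt : Y.1.ncard < n := by
      have h5 := Set.ncard_lt_card Y.2.2
      rwa [Nat.card_fin] at h5
    have h4 : Nat.card (CG (Option (Y.1ᶜ : Set (Fin n)))) = numLabeled (n - Y.1.ncard + 1) := by
      have h5 := num_option (α := (Y.1ᶜ : Set (Fin n)))
      rw [Nat.card_coe_set_eq, Set.ncard_compl, Nat.card_fin] at h5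
      exact h5
    rw [h3, h4]
    have hk := Y.2.1
    generalize Y.1.ncard = k at *
    by_cases hc : k ≤ (n + 1) / 2
    · rw [mul_comm]
      refine Nat.mul_le_mul (numLabeled_mono (by omega)) ((numLabeled_le k).trans ?_)
      exact Nat.pow_le_pow_right (by norm_num) (Nat.pow_le_pow_right (by norm_num) hc)
    · refine Nat.mul_le_mul (numLabeled_mono (by omega)) ((numLabeled_le _).trans ?_)
      exact Nat.pow_le_pow_right (by norm_num) (Nat.pow_le_pow_right (by norm_num) (by omega))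
  calc numNonPrimitive n ≤ ∑ Y : I, Nat.card (CG Y.1 × CG (Option (Y.1ᶜ : Set (Fin n)))) := h1
    _ ≤ ∑ _Y : I, numLabeled (n - 1) * 2 ^ 2 ^ ((n + 1) / 2) := Finset.sum_le_sum fun Y _ => h2 Y
    _ = Fintype.card I * (numLabeled (n - 1) * 2 ^ 2 ^ ((n + 1) / 2)) := by
      rw [Finset.sum_const, Finset.card_univ, smul_eq_mul]
    _ ≤ 2 ^ n * (numLabeled (n - 1) * 2 ^ 2 ^ ((n + 1) / 2)) := by
      apply Nat.mul_le_mul_right
      have h5 : Fintype.card I ≤ Fintype.card (Set (Fin n)) :=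
        Fintype.card_le_of_injective _ Subtype.val_injective
      rwa [Fintype.card_set, Fintype.card_fin] at h5

end Pool.Agent.Q164.ConvexGeom
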