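import Mathlib
import Pool.Agent.Q164.ConvexGeom.Count

/-!
# Almost all convex geometries are primitive
-/

set_option autoImplicit false

namespace Pool.Agent.Q164.ConvexGeom

open Set Filter Topology

theorem eventually_pow : ∃ N : ℕ, ∀ M : ℕ, N ≤ M → 64 * M ^ 5 ≤ 2 ^ (M / 2) := by
  have h := tendsto_pow_const_div_const_pow_of_one_lt 5 (r := (2 : ℝ)) (by norm_num)
  have h1 : ∀ᶠ h : ℕ in atTop, (h : ℝ) ^ 5 / 2 ^ h < 1 / (64 * 243) :=
    h.eventually (gt_mem_nhds (by norm_num))
  obtain ⟨N, hN⟩ := eventually_atTop.1 h1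
  refine ⟨2 * N + 2, fun M hM => ?_⟩
  have h2 := hN (M / 2) (by omega)
  rw [div_lt_div_iff₀ (by positivity) (by norm_num), one_mul] at h2
  have h3 : ((M / 2 : ℕ) : ℝ) ^ 5 * (64 * 243) ≤ 2 ^ (M / 2) := h2.le
  have h4 : (M / 2) ^ 5 * (64 * 243) ≤ 2 ^ (M / 2) := by exact_mod_cast h3
  have h5 : M ≤ 3 * (M / 2) := by omega
  calc 64 * M ^ 5 ≤ 64 * (3 * (M / 2)) ^ 5 := by gcongr
    _ = (M / 2) ^ 5 * (64 * 243) := by ring
    _ ≤ 2 ^ (M / 2) := h4

theorem choose_bound (m : ℕ) : 2 ^ m ≤ (m + 1) * m.choose (m / 2) := by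
  rw [← Nat.sum_range_choose]
  calc ∑ k ∈ Finset.range (m + 1), m.choose k ≤ ∑ _k ∈ Finset.range (m + 1), m.choose (m / 2) :=
        Finset.sum_le_sum fun k _ => Nat.choose_le_middle k m
    _ = (m + 1) * m.choose (m / 2) := by simp

theorem numeric : ∃ N : ℕ, ∀ m : ℕ, N ≤ m →
    (m + 1) * ((m + 1) * ((m + 1) *
      ((m + 2) ^ 2 + (m + 2) + (m + 2) + 2 ^ ((m + 3) / 2) + 1)) + 1) ≤ 2 ^ m := by
  obtain ⟨N, hN⟩ := eventually_pow
  refine ⟨N, fun m hm => ?_⟩
  have h1 := hN (m + 3) (by omega)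
  set M := m + 3 with hM
  have hm1 : m + 1 ≤ M := by omega
  have hm2 : m + 2 ≤ M := by omega
  have hMpos : 3 ≤ M := by omega
  set P := 2 ^ (M / 2) with hP
  have hPP : P * P ≤ 8 * 2 ^ m := by
    rw [hP, ← pow_add, show (8 : ℕ) = 2 ^ 3 by norm_num, ← pow_add]
    exact Nat.pow_le_pow_right (by norm_num) (by omega)
  have hMP : 64 * M ^ 3 ≤ P := le_trans (Nat.mul_le_mul_left _
    (Nat.pow_le_pow_right (by omega) (by norm_num))) h1
  have hP1 : 64 ≤ P := le_trans (by nlinarith [Nat.one_le_pow 3 M (by omega)]) hMP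
  calc (m + 1) * ((m + 1) * ((m + 1) * ((m + 2) ^ 2 + (m + 2) + (m + 2) + P + 1)) + 1)
      ≤ M * (M * (M * (M ^ 2 + M + M + P + 1)) + 1) := by gcongr
    _ ≤ M ^ 5 * 5 + M ^ 3 * P := by
        have h2 : 1 ≤ M ^ 2 := Nat.one_le_pow _ _ (by omega)
        have h3 : M ≤ M ^ 2 := by nlinarith
        have h4 : M * (M * (M * (M ^ 2 + M + M + P + 1)) + 1) =
            M ^ 3 * (M ^ 2 + M + M + 1) + M + M ^ 3 * P := by ring
        have h5 : M ^ 3 * (M ^ 2 + M + M + 1) + M ≤ M ^ 5 * 5 := by
          have h6 : M ^ 3 * (M ^ 2 + M + M + 1) ≤ M ^ 3 * (4 * M ^ 2) := by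
            apply Nat.mul_le_mul_left
            omega
          have h7 : M ≤ M ^ 5 := Nat.le_self_pow (by norm_num) M
          have h8 : M ^ 3 * (4 * M ^ 2) = M ^ 5 * 4 := by ring
          omega
        rw [h4]
        omega
    _ ≤ 2 ^ m := by
        have h2 : 64 * (M ^ 3 * P) ≤ P * P := by
          calc 64 * (M ^ 3 * P) = 64 * M ^ 3 * P := by ring
            _ ≤ P * P := Nat.mul_le_mul_right _ hMP
        have h3 : P ≤ P * P := Nat.le_mul_self P
        have h4 : 64 * (M ^ 5 * 5 + M ^ 3 * P) ≤ 8 * (8 * 2 ^ m) := by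
          calc 64 * (M ^ 5 * 5 + M ^ 3 * P) = 5 * (64 * M ^ 5) + 64 * (M ^ 3 * P) := by ring
            _ ≤ 5 * P + P * P := by omega
            _ ≤ 8 * (P * P) := by omega
            _ ≤ 8 * (8 * 2 ^ m) := Nat.mul_le_mul_left _ hPP
        omega

/-- The key estimate: eventually `n * n! * R ≤ L`. -/
theorem key : ∃ N : ℕ, ∀ n : ℕ, N ≤ n →
    n * n.factorial * numNonPrimitive n ≤ numLabeled n := by
  obtain ⟨N, hN⟩ := numeric
  refine ⟨N + 4, fun n hn => ?_⟩
  obtain ⟨m, rfl⟩ : ∃ m, n = m + 2 := ⟨n - 2, by omega⟩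
  set t := (m + 2) ^ 2 + (m + 2) + (m + 2) + 2 ^ ((m + 3) / 2) + 1 with ht
  have h1 := hN m (by omega)
  rw [← ht] at h1
  have h2 : (m + 1) * ((m + 1) * t) + 1 ≤ m.choose (m / 2) := by
    have := h1.trans (choose_bound m)
    exact Nat.le_of_mul_le_mul_left this (by omega)
  have h3 := growth m ((m + 1) * t) t (m / 2) (by omega) h2 le_rfl
  have h4 := nonPrimitive_le (m + 2)
  rw [show m + 2 - 1 = m + 1 by omega, show m + 2 + 1 = m + 3 by omega] at h4
  have h5 : (m + 2) * (m + 2).factorial * 2 ^ (m + 2) * 2 ^ 2 ^ ((m + 3) / 2) * 2 ≤ 2 ^ t := by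
    have h6 : (m + 2) ≤ 2 ^ (m + 2) := Nat.lt_two_pow_self.le
    have h7 : (m + 2).factorial ≤ 2 ^ ((m + 2) ^ 2) := by
      calc (m + 2).factorial ≤ (m + 2) ^ (m + 2) := Nat.factorial_le_pow _
        _ ≤ (2 ^ (m + 2)) ^ (m + 2) := Nat.pow_le_pow_left h6 _
        _ = 2 ^ ((m + 2) ^ 2) := by rw [← pow_mul, sq]
    calc (m + 2) * (m + 2).factorial * 2 ^ (m + 2) * 2 ^ 2 ^ ((m + 3) / 2) * 2
        ≤ 2 ^ (m + 2) * 2 ^ ((m + 2) ^ 2) * 2 ^ (m + 2) * 2 ^ 2 ^ ((m + 3) / 2) * 2 := by gcongr
      _ = 2 ^ t := by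
        rw [ht]
        ring
  have h8 : (m + 2) * (m + 2).factorial * numNonPrimitive (m + 2) * 2 ^ t ≤
      numLabeled (m + 2) * 2 ^ t := by
    calc (m + 2) * (m + 2).factorial * numNonPrimitive (m + 2) * 2 ^ t
        ≤ (m + 2) * (m + 2).factorial *
          (2 ^ (m + 2) * (numLabeled (m + 1) * 2 ^ 2 ^ ((m + 3) / 2))) * 2 ^ t := by gcongr
      _ = (m + 2) * (m + 2).factorial * 2 ^ (m + 2) * 2 ^ 2 ^ ((m + 3) / 2) *
          (numLabeled (m + 1) * 2 ^ t) := by ring
      _ ≤ (m + 2) * (m + 2).factorial * 2 ^ (m + 2) * 2 ^ 2 ^ ((m + 3) / 2) *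
          (2 * numLabeled (m + 2)) := by gcongr
      _ = (m + 2) * (m + 2).factorial * 2 ^ (m + 2) * 2 ^ 2 ^ ((m + 3) / 2) * 2 *
          numLabeled (m + 2) := by ring
      _ ≤ 2 ^ t * numLabeled (m + 2) := by gcongr
      _ = numLabeled (m + 2) * 2 ^ t := by ring
  exact Nat.le_of_mul_le_mul_right h8 (by positivity)

theorem numLabeled_split (n : ℕ) :
    numLabeledPrimitive n + numNonPrimitive n = numLabeled n := by
  classical
  unfold numLabeledPrimitive numNonPrimitive numLabeled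
  have h1 : ∀ P : Set (Set (Fin n)) → Prop,
      Nat.card {G : Set (Set (Fin n)) // IsConvexGeometry G ∧ P G} =
      Nat.card {G : {G : Set (Set (Fin n)) // IsConvexGeometry G} // P G.1} := fun P =>
    Nat.card_congr (Equiv.subtypeSubtypeEquivSubtypeInter _ _).symm
  rw [h1 IsPrimitive, h1 (fun G => ¬ IsPrimitive G), ← Nat.card_sum]
  exact Nat.card_congr (Equiv.sumCompl _)

theorem tendsto_labeled :
    Tendsto (fun n : ℕ => (numLabeledPrimitive n : ℝ) / numLabeled n) atTop (𝓝 1) := by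
  obtain ⟨N, hN⟩ := key
  have h1 : Tendsto (fun n : ℕ => 1 - 1 / (n : ℝ)) atTop (𝓝 1) := by
    have := tendsto_one_div_atTop_nhds_zero_nat (𝕜 := ℝ)
    simpa using this.const_sub 1
  refine tendsto_of_tendsto_of_tendsto_of_le_of_le' h1 tendsto_const_nhds ?_ ?_
  · filter_upwards [eventually_ge_atTop (N + 1)] with n hn
    have hL : (0 : ℝ) < numLabeled n := by exact_mod_cast numLabeled_pos n
    have hn0 : (0 : ℝ) < n := by
      have : 0 < n := by omega
      exact_mod_cast this
    have h2 := hN n (by omega)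
    have h3 : (n : ℝ) * numNonPrimitive n ≤ numLabeled n := by
      have h4 : n * numNonPrimitive n ≤ numLabeled n := by
        refine le_trans ?_ h2
        have : 1 ≤ n.factorial := Nat.factorial_pos n
        calc n * numNonPrimitive n = n * 1 * numNonPrimitive n := by ring
          _ ≤ n * n.factorial * numNonPrimitive n := by gcongr
      exact_mod_cast h4
    have h5 : (numLabeledPrimitive n : ℝ) + numNonPrimitive n = numLabeled n := by
      exact_mod_cast numLabeled_split n
    rw [le_div_iff₀ hL]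
    have h6 : (numNonPrimitive n : ℝ) ≤ 1 / n * numLabeled n := by
      rw [div_mul_eq_mul_div, one_mul, le_div_iff₀ hn0]
      linarith
    linarith
  · filter_upwards with n
    have hL : (0 : ℝ) < numLabeled n := by exact_mod_cast numLabeled_pos n
    have h5 : (numLabeledPrimitive n : ℝ) + numNonPrimitive n = numLabeled n := by
      exact_mod_cast numLabeled_split n
    rw [div_le_one hL]
    have : (0 : ℝ) ≤ numNonPrimitive n := Nat.cast_nonneg _
    linarith

/-! ### Isomorphism classes -/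

theorem unlabeledPrimitive_le (n : ℕ) : numUnlabeledPrimitive n ≤ numUnlabeled n := by
  classical
  unfold numUnlabeledPrimitive numUnlabeled numClasses
  refine Nat.card_le_card_of_injective (Quotient.map'
    (fun G => (⟨G.1, G.2.1⟩ : {G : Set (Set (Fin n)) // IsConvexGeometry G})) ?_) ?_
  · rintro G H ⟨e, he⟩
    exact ⟨e, he⟩
  · intro a b
    refine Quotient.inductionOn₂' a b ?_
    intro G H h
    rw [Quotient.map'_mk'', Quotient.map'_mk'', Quotient.eq''] at h
    rw [Quotient.eq'']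
    obtain ⟨e, he⟩ := h
    exact ⟨e, he⟩

theorem unlabeled_le (n : ℕ) :
    numUnlabeled n ≤ numUnlabeledPrimitive n + numNonPrimitive n := by
  classical
  unfold numUnlabeledPrimitive numUnlabeled numClasses numNonPrimitive
  rw [← Nat.card_sum]
  refine Nat.card_le_card_of_injective (fun q : Quotient (isoSetoid n IsConvexGeometry) =>
    if h : IsPrimitive (Quotient.out q).1 then
      Sum.inl (Quotient.mk'' (⟨(Quotient.out q).1, (Quotient.out q).2, h⟩ :
        {G : Set (Set (Fin n)) // IsConvexGeometry G ∧ IsPrimitive G}))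
    else Sum.inr ⟨(Quotient.out q).1, (Quotient.out q).2, h⟩) ?_
  intro a b h
  simp only at h
  split_ifs at h with h1 h2 h2
  · have h3 := Sum.inl.inj h
    rw [Quotient.eq''] at h3
    obtain ⟨e, he⟩ := h3
    rw [← Quotient.out_eq a, ← Quotient.out_eq b]
    exact Quotient.sound ⟨e, he⟩
  · have h3 := Sum.inr.inj h
    have h4 : (Quotient.out a).1 = (Quotient.out b).1 := by
      have := congrArg Subtype.val h3
      exact this
    rw [← Quotient.out_eq a, ← Quotient.out_eq b, Subtype.ext h4]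

theorem labeled_le (n : ℕ) : numLabeled n ≤ n.factorial * numUnlabeled n := by
  classical
  unfold numUnlabeled numClasses numLabeled
  have h1 : ∀ G : {G : Set (Set (Fin n)) // IsConvexGeometry G}, ∃ e : Equiv.Perm (Fin n),
      ∀ A : Set (Fin n), A ∈ G.1 ↔
        e '' A ∈ (Quotient.out (Quotient.mk (isoSetoid n IsConvexGeometry) G)).1 := by
    intro G
    have h := Quotient.exact
      (Quotient.out_eq (Quotient.mk (isoSetoid n IsConvexGeometry) G)).symm
    exact h
  choose e he using h1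
  have hinj : Function.Injective (fun G : {G : Set (Set (Fin n)) // IsConvexGeometry G} =>
      (e G, Quotient.mk (isoSetoid n IsConvexGeometry) G)) := by
    intro G H h
    rw [Prod.mk.injEq] at h
    apply Subtype.ext
    ext A
    rw [he G A, he H A, h.1, h.2]
  have h2 := Nat.card_le_card_of_injective _ hinj
  rw [Nat.card_prod] at h2
  have h3 : Nat.card (Equiv.Perm (Fin n)) = n.factorial := by
    rw [Nat.card_eq_fintype_card, Fintype.card_perm, Fintype.card_fin]
  rwa [h3] at h2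

theorem tendsto_unlabeled :
    Tendsto (fun n : ℕ => (numUnlabeledPrimitive n : ℝ) / numUnlabeled n) atTop (𝓝 1) := by
  obtain ⟨N, hN⟩ := key
  have h1 : Tendsto (fun n : ℕ => 1 - 1 / (n : ℝ)) atTop (𝓝 1) := by
    have := tendsto_one_div_atTop_nhds_zero_nat (𝕜 := ℝ)
    simpa using this.const_sub 1
  have hU : ∀ n, (0 : ℝ) < numUnlabeled n := by
    intro n
    have h := labeled_le n
    have h2 := numLabeled_pos n
    have : 0 < numUnlabeled n := by
      rcases Nat.eq_zero_or_pos (numUnlabeled n) with h3 | h3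
      · rw [h3] at h
        omega
      · exact h3
    exact_mod_cast this
  refine tendsto_of_tendsto_of_tendsto_of_le_of_le' h1 tendsto_const_nhds ?_ ?_
  · filter_upwards [eventually_ge_atTop (N + 1)] with n hn
    have hn0 : (0 : ℝ) < n := by
      have : 0 < n := by omega
      exact_mod_cast this
    have h2 := (hN n (by omega)).trans (labeled_le n)
    have h3 : (n : ℝ) * numNonPrimitive n ≤ numUnlabeled n := by
      have h4 : n * numNonPrimitive n ≤ numUnlabeled n := by
        have h5 : n.factorial * (n * numNonPrimitive n) ≤ n.factorial * numUnlabeled n := by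
          calc n.factorial * (n * numNonPrimitive n) = n * n.factorial * numNonPrimitive n := by
                ring
            _ ≤ _ := h2
        exact Nat.le_of_mul_le_mul_left h5 (Nat.factorial_pos n)
      exact_mod_cast h4
    have h5 : (numUnlabeled n : ℝ) ≤ numUnlabeledPrimitive n + numNonPrimitive n := by
      exact_mod_cast unlabeled_le n
    rw [le_div_iff₀ (hU n)]
    have h6 : (numNonPrimitive n : ℝ) ≤ 1 / n * numUnlabeled n := by
      rw [div_mul_eq_mul_div, one_mul, le_div_iff₀ hn0]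
      linarith
    linarith
  · filter_upwards with n
    rw [div_le_one (hU n)]
    exact_mod_cast unlabeledPrimitive_le n

end Pool.Agent.Q164.ConvexGeom
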